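import Mathlib

/-!
# There is no minimum axiomatic extension of MTL with the deductive interpolation property

Let `B4` be the four-element chain `0 < u < v < 1` in which every product of two elements
different from `1` is `0`, and `C4` the four-element MV-chain. The logic of each of them has the
deductive interpolation property (DIP), but no axiomatic extension of MTL contained in both of
these logics has it.
-/

namespace Pool.Agent.Results.MP_acc005_lc.NoMinimum

/-! ### Definitions -/

/-- MTL-algebras: bounded lattices with least element `zero` and greatest element `1`, with a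
commutative monoid structure with unit `1`, residuation and prelinearity. -/
class MTLAlgebra (A : Type) extends Lattice A, CommMonoid A where
  /-- the constant `0` -/
  zero : A
  /-- the residual `→` -/
  imp : A → A → A
  zero_le : ∀ x : A, zero ≤ x
  le_one : ∀ x : A, x ≤ 1
  residuation : ∀ x y z : A, x * y ≤ z ↔ x ≤ imp y z
  prelinearity : ∀ x y : A, imp x y ⊔ imp y x = 1

/-- Formulas in the language `{∧, ∨, ·, →, 0, 1}` over countably many variables. -/
inductive Fm : Type
  | var : ℕ → Fm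
  | zero : Fm
  | one : Fm
  | inf : Fm → Fm → Fm
  | sup : Fm → Fm → Fm
  | mul : Fm → Fm → Fm
  | imp : Fm → Fm → Fm

/-- The value of a formula under a valuation `v` of the variables in an MTL-algebra. -/
def Fm.eval {A : Type} [MTLAlgebra A] (v : ℕ → A) : Fm → A
  | .var n => v n
  | .zero => MTLAlgebra.zero
  | .one => 1
  | .inf φ ψ => φ.eval v ⊓ ψ.eval v
  | .sup φ ψ => φ.eval v ⊔ ψ.eval v
  | .mul φ ψ => φ.eval v * ψ.eval v
  | .imp φ ψ => MTLAlgebra.imp (φ.eval v) (ψ.eval v)

/-- The set of variables of a formula. -/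
def Fm.vars : Fm → Set ℕ
  | .var n => {n}
  | .zero => ∅
  | .one => ∅
  | .inf φ ψ => φ.vars ∪ ψ.vars
  | .sup φ ψ => φ.vars ∪ ψ.vars
  | .mul φ ψ => φ.vars ∪ ψ.vars
  | .imp φ ψ => φ.vars ∪ ψ.vars

/-- Substitution of formulas for variables. -/
def Fm.subst (σ : ℕ → Fm) : Fm → Fm
  | .var n => σ n
  | .zero => .zero
  | .one => .one
  | .inf φ ψ => .inf (φ.subst σ) (ψ.subst σ)
  | .sup φ ψ => .sup (φ.subst σ) (ψ.subst σ)
  | .mul φ ψ => .mul (φ.subst σ) (ψ.subst σ)
  | .imp φ ψ => .imp (φ.subst σ) (ψ.subst σ)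

/-- The consequence relation of MTL: every valuation into every MTL-algebra sending all of `Γ`
to `1` sends `φ` to `1`. -/
def EntailsMTL (Γ : Set Fm) (φ : Fm) : Prop :=
  ∀ (A : Type) [MTLAlgebra A] (v : ℕ → A), (∀ γ ∈ Γ, γ.eval v = 1) → φ.eval v = 1

/-- An axiomatic extension of MTL is given by a substitution-closed set of additional axioms. -/
structure AxExt where
  /-- the additional axioms -/
  ax : Set Fm
  closed : ∀ φ ∈ ax, ∀ σ : ℕ → Fm, φ.subst σ ∈ ax

/-- The consequence relation of an axiomatic extension of MTL. -/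
def AxExt.Entails (L : AxExt) (Γ : Set Fm) (φ : Fm) : Prop := EntailsMTL (Γ ∪ L.ax) φ

/-- The deductive interpolation property. -/
def AxExt.DIP (L : AxExt) : Prop :=
  ∀ (Γ : Set Fm) (φ : Fm), L.Entails Γ φ →
    ∃ Δ : Set Fm, (∀ δ ∈ Δ, δ.vars ⊆ (⋃ γ ∈ Γ, γ.vars) ∩ φ.vars) ∧
      (∀ δ ∈ Δ, L.Entails Γ δ) ∧ L.Entails Δ φ

/-- Inclusion of consequence relations. -/
def AxExt.Le (L L' : AxExt) : Prop := ∀ (Γ : Set Fm) (φ : Fm), L.Entails Γ φ → L'.Entails Γ φ

/-! ### Basic facts -/

section basic

variable {A : Type} [MTLAlgebra A]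

open MTLAlgebra

lemma imp_mul_le (x y : A) : imp x y * x ≤ y := (residuation _ _ _).mpr le_rfl

lemma le_imp {x y z : A} (h : x * y ≤ z) : x ≤ imp y z := (residuation _ _ _).mp h

lemma mul_le_mul'' {a b c d : A} (h1 : a ≤ b) (h2 : c ≤ d) : a * c ≤ b * d := by
  have h3 : a * c ≤ b * c := (residuation _ _ _).mpr (h1.trans (le_imp le_rfl))
  have h4 : c * b ≤ d * b := (residuation _ _ _).mpr (h2.trans (le_imp le_rfl))
  rw [mul_comm c b, mul_comm d b] at h4
  exact h3.trans h4

lemma mul_le_left (a b : A) : a * b ≤ a := by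
  have := mul_le_mul'' (le_refl a) (le_one b)
  rwa [mul_one] at this

lemma mul_le_right (a b : A) : a * b ≤ b := by
  rw [mul_comm]; exact mul_le_left b a

lemma sup_mul' (a b c : A) : (a ⊔ b) * c = a * c ⊔ b * c := by
  apply le_antisymm
  · rw [residuation]
    exact sup_le (le_imp le_sup_left) (le_imp le_sup_right)
  · exact sup_le (mul_le_mul'' le_sup_left le_rfl) (mul_le_mul'' le_sup_right le_rfl)

lemma imp_eq_one {x y : A} : imp x y = 1 ↔ x ≤ y := by
  constructor
  · intro h
    have := imp_mul_le x y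
    rwa [h, one_mul] at this
  · intro h
    apply le_antisymm (le_one _)
    apply le_imp
    rwa [one_mul]

lemma one_imp (x : A) : imp 1 x = x := by
  apply le_antisymm
  · have := imp_mul_le 1 x
    rwa [mul_one] at this
  · exact le_imp (mul_le_left _ _)

lemma zero_mul' (x : A) : (zero : A) * x = zero :=
  le_antisymm (mul_le_left _ _) (zero_le _)

lemma eq_zero_of_le {x : A} (h : x ≤ zero) : x = zero := le_antisymm h (zero_le _)

lemma sup_mul_eq_one {x y z : A} (h1 : x ⊔ y = 1) (h2 : z ⊔ y = 1) : x * z ⊔ y = 1 := by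
  apply le_antisymm (le_one _)
  calc (1 : A) = (x ⊔ y) * (z ⊔ y) := by rw [h1, h2, one_mul]
    _ = x * (z ⊔ y) ⊔ y * (z ⊔ y) := sup_mul' _ _ _
    _ ≤ x * z ⊔ y := by
      apply sup_le
      · rw [mul_comm, sup_mul']
        apply sup_le
        · rw [mul_comm]; exact le_sup_left
        · exact (mul_le_left _ _).trans le_sup_right
      · exact (mul_le_left _ _).trans le_sup_right

lemma pow_sup_eq_one {x y : A} (h : x ⊔ y = 1) (n : ℕ) : x ^ n ⊔ y = 1 := by
  induction n with
  | zero => rw [pow_zero]; exact le_antisymm (le_one _) le_sup_left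
  | succ n ih => rw [pow_succ]; exact sup_mul_eq_one ih h

lemma pow_sup_pow_eq_one {x y : A} (h : x ⊔ y = 1) (n m : ℕ) : x ^ n ⊔ y ^ m = 1 := by
  have h1 := pow_sup_eq_one h n
  rw [sup_comm] at h1 ⊢
  exact pow_sup_eq_one h1 m

lemma eval_congr {v w : ℕ → A} (φ : Fm) (h : ∀ n ∈ φ.vars, v n = w n) :
    φ.eval v = φ.eval w := by
  induction φ with
  | var n => exact h n rfl
  | zero => rfl
  | one => rfl
  | inf φ ψ h1 h2 | sup φ ψ h1 h2 | mul φ ψ h1 h2 | imp φ ψ h1 h2 =>
    simp only [Fm.eval]
    rw [h1 fun n hn => h n (Or.inl hn), h2 fun n hn => h n (Or.inr hn)]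

lemma eval_subst (v : ℕ → A) (σ : ℕ → Fm) (φ : Fm) :
    (φ.subst σ).eval v = φ.eval fun n => (σ n).eval v := by
  induction φ with
  | var n => rfl
  | zero => rfl
  | one => rfl
  | inf φ ψ h1 h2 | sup φ ψ h1 h2 | mul φ ψ h1 h2 | imp φ ψ h1 h2 =>
    simp only [Fm.eval, Fm.subst]
    rw [h1, h2]

end basic

/-- Powers of a formula. -/
def npow (φ : Fm) : ℕ → Fm
  | 0 => .one
  | n + 1 => .mul (npow φ n) φ

lemma eval_npow {A : Type} [MTLAlgebra A] (v : ℕ → A) (φ : Fm) (n : ℕ) :
    (npow φ n).eval v = φ.eval v ^ n := by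
  induction n with
  | zero => simp [npow, Fm.eval]
  | succ n ih => simp [npow, Fm.eval, ih, pow_succ]

lemma vars_npow (φ : Fm) (n : ℕ) : (npow φ n).vars ⊆ φ.vars := by
  induction n with
  | zero => simp [npow, Fm.vars]
  | succ n ih => simp [npow, Fm.vars, ih]

/-- Product of a list of formulas. -/
def prod : List Fm → Fm
  | [] => .one
  | φ :: l => .mul φ (prod l)

section prod

variable {A : Type} [MTLAlgebra A]

open MTLAlgebra

lemma eval_prod_eq_one (v : ℕ → A) (l : List Fm) (h : ∀ φ ∈ l, φ.eval v = 1) :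
    (prod l).eval v = 1 := by
  induction l with
  | nil => rfl
  | cons φ l ih =>
    simp only [prod, Fm.eval]
    rw [h φ (by simp), ih fun ψ hψ => h ψ (by simp [hψ]), one_mul]

lemma eval_prod_le (v : ℕ → A) (l : List Fm) (φ : Fm) (h : φ ∈ l) :
    (prod l).eval v ≤ φ.eval v := by
  induction l with
  | nil => simp at h
  | cons ψ l ih =>
    simp only [prod, Fm.eval]
    rcases List.mem_cons.mp h with rfl | h
    · exact mul_le_left _ _
    · exact (mul_le_right _ _).trans (ih h)

lemma vars_prod (l : List Fm) (X : Set ℕ) (h : ∀ φ ∈ l, φ.vars ⊆ X) : (prod l).vars ⊆ X := by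
  induction l with
  | nil => simp [prod, Fm.vars]
  | cons ψ l ih =>
    simp only [prod, Fm.vars]
    exact Set.union_subset (h ψ (by simp)) (ih fun φ hφ => h φ (by simp [hφ]))

end prod

lemma vars_subst (φ : Fm) (σ : ℕ → Fm) (X : Set ℕ) (h : ∀ n ∈ φ.vars, (σ n).vars ⊆ X) :
    (φ.subst σ).vars ⊆ X := by
  induction φ with
  | var n => exact h n rfl
  | zero => simp [Fm.subst, Fm.vars]
  | one => simp [Fm.subst, Fm.vars]
  | inf φ ψ h1 h2 | sup φ ψ h1 h2 | mul φ ψ h1 h2 | imp φ ψ h1 h2 =>
    simp only [Fm.subst, Fm.vars]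
    exact Set.union_subset (h1 fun n hn => h n (Or.inl hn)) (h2 fun n hn => h n (Or.inr hn))

/-! ### The logic of a finite algebra -/

/-- The axiomatic extension of MTL by all formulas valid in `B`. -/
def logicOf (B : Type) [MTLAlgebra B] : AxExt where
  ax := {φ | ∀ v : ℕ → B, φ.eval v = 1}
  closed := by
    intro φ hφ σ v
    rw [eval_subst]
    exact hφ _

section logic

variable {B : Type} [MTLAlgebra B]

open MTLAlgebra

lemma isClosed_model (φ : Fm) (c : B) :
    letI : TopologicalSpace B := ⊥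
    IsClosed {w : ℕ → B | φ.eval w = c} := by
  let _ : TopologicalSpace B := ⊥
  have : DiscreteTopology B := ⟨rfl⟩
  have hc : Continuous fun w : ℕ → B => φ.eval w := by
    induction φ with
    | var n => exact continuous_apply n
    | zero => exact continuous_const
    | one => exact continuous_const
    | inf φ ψ h1 h2 =>
      exact (continuous_of_discreteTopology (f := fun p : B × B => p.1 ⊓ p.2)).comp
        (h1.prodMk h2)
    | sup φ ψ h1 h2 =>
      exact (continuous_of_discreteTopology (f := fun p : B × B => p.1 ⊔ p.2)).comp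
        (h1.prodMk h2)
    | mul φ ψ h1 h2 =>
      exact (continuous_of_discreteTopology (f := fun p : B × B => p.1 * p.2)).comp
        (h1.prodMk h2)
    | imp φ ψ h1 h2 =>
      exact (continuous_of_discreteTopology (f := fun p : B × B => imp p.1 p.2)).comp
        (h1.prodMk h2)
  exact (isClosed_discrete ({c} : Set B)).preimage hc

/-- Compactness for the consequence relation of a finite algebra. -/
lemma compactness [Finite B] {ι : Type} (t : ι → Fm × B)
    (Γ : Set Fm) (hfin : ∀ s : Finset ι, ∃ w : ℕ → B, (∀ γ ∈ Γ, γ.eval w = 1) ∧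
      ∀ i ∈ s, (t i).1.eval w = (t i).2) :
    ∃ w : ℕ → B, (∀ γ ∈ Γ, γ.eval w = 1) ∧ ∀ i, (t i).1.eval w = (t i).2 := by
  let _ : TopologicalSpace B := ⊥
  have : DiscreteTopology B := ⟨rfl⟩
  have hK : IsCompact {w : ℕ → B | ∀ γ ∈ Γ, γ.eval w = 1} := by
    have : {w : ℕ → B | ∀ γ ∈ Γ, γ.eval w = 1} = ⋂ γ ∈ Γ, {w : ℕ → B | γ.eval w = 1} := by
      ext w; simp
    rw [this]
    exact (isClosed_biInter fun γ _ => isClosed_model γ 1).isCompact
  have := hK.inter_iInter_nonempty (fun i => {w : ℕ → B | (t i).1.eval w = (t i).2})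
    (fun i => isClosed_model _ _) (by
      intro s
      obtain ⟨w, hw1, hw2⟩ := hfin s
      exact ⟨w, hw1, by simpa using hw2⟩)
  obtain ⟨w, hw1, hw2⟩ := this
  exact ⟨w, hw1, by simpa using hw2⟩

/-- For a finite algebra in which every element `≠ 1` is nilpotent, the logic of `B` is
complete with respect to `B`. -/
lemma entails_iff [Finite B] (k : ℕ) (hk : ∀ b : B, b ≠ 1 → b ^ k = zero) (Γ : Set Fm) (φ : Fm) :
    (logicOf B).Entails Γ φ ↔ ∀ w : ℕ → B, (∀ γ ∈ Γ, γ.eval w = 1) → φ.eval w = 1 := by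
  constructor
  · intro h w hw
    refine h B w ?_
    rintro γ (hγ | hγ)
    · exact hw γ hγ
    · exact hγ w
  · intro h A _ v hv
    -- finitely many premises suffice in `B`
    have hfin : ∃ l : List Fm, (∀ γ ∈ l, γ ∈ Γ) ∧
        ∀ w : ℕ → B, (∀ γ ∈ l, γ.eval w = 1) → φ.eval w = 1 := by
      classical
      by_contra hcon
      push Not at hcon
      let _ : TopologicalSpace B := ⊥
      have : DiscreteTopology B := ⟨rfl⟩
      have hK : IsCompact {w : ℕ → B | φ.eval w ≠ 1} := by
        have h1 : {w : ℕ → B | φ.eval w ≠ 1} = ⋃ c ∈ {c : B | c ≠ 1}, {w | φ.eval w = c} := by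
          ext w; simp
        rw [h1]
        exact ((Set.toFinite _).isClosed_biUnion fun c _ => isClosed_model φ c).isCompact
      obtain ⟨w, hw1, hw2⟩ := hK.inter_iInter_nonempty
        (fun γ : Γ => {w : ℕ → B | (γ : Fm).eval w = 1}) (fun γ => isClosed_model _ _) (by
          intro s
          obtain ⟨w, hw1, hw2⟩ := hcon (s.toList.map Subtype.val) (by
            intro γ hγ
            simp only [List.mem_map, Finset.mem_toList] at hγ
            obtain ⟨γ', -, rfl⟩ := hγ
            exact γ'.2)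
          refine ⟨w, hw2, ?_⟩
          simp only [Set.mem_iInter, Set.mem_ofPred_eq]
          intro γ hγ
          exact hw1 γ (by simp only [List.mem_map, Finset.mem_toList]; exact ⟨γ, hγ, rfl⟩))
      refine hw1 (h w fun γ hγ => ?_)
      have := Set.mem_iInter.mp hw2 ⟨γ, hγ⟩
      exact this
    obtain ⟨l, hl, hlw⟩ := hfin
    have hax : (Fm.imp (npow (prod l) k) φ) ∈ (logicOf B).ax := by
      intro w
      simp only [Fm.eval, eval_npow]
      rw [imp_eq_one]
      by_cases hw : (prod l).eval w = 1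
      · rw [hlw w fun γ hγ => ?_]
        · exact le_one _
        · apply le_antisymm (le_one _)
          rw [← hw]
          exact eval_prod_le w l γ hγ
      · rw [hk _ hw]
        exact zero_le _
    have h1 := hv _ (Or.inr hax)
    simp only [Fm.eval, eval_npow] at h1
    rw [eval_prod_eq_one v l fun γ hγ => hv γ (Or.inl (hl γ hγ)), one_pow, one_imp] at h1
    exact h1

/-- If moreover every element of `B` is defined by a formula in one variable, then the logic
of `B` has the deductive interpolation property. -/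
theorem dip_logicOf [Finite B] (hnt : (zero : B) ≠ 1) (k : ℕ) (hk : ∀ b : B, b ≠ 1 → b ^ k = zero)
    (θ : B → Fm)
    (hdef : ∀ b b' : B, (θ b).eval (fun _ => b') = 1 ↔ b' = b) : (logicOf B).DIP := by
  classical
  intro Γ φ hΓφ
  rw [entails_iff k hk] at hΓφ
  set X : Set ℕ := (⋃ γ ∈ Γ, γ.vars) ∩ φ.vars with hX
  refine ⟨{δ | δ.vars ⊆ X ∧ (logicOf B).Entails Γ δ}, fun δ hδ => hδ.1, fun δ hδ => hδ.2, ?_⟩
  rw [entails_iff k hk]
  intro w hw
  -- the formula saying that variable `x` has value `b`
  have hsub : ∀ (x : ℕ) (b : B) (w' : ℕ → B),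
      ((θ b).subst fun _ => .var x).eval w' = 1 ↔ w' x = b := by
    intro x b w'
    rw [eval_subst]
    exact hdef b (w' x)
  obtain ⟨w', hw'Γ, hw'X⟩ : ∃ w' : ℕ → B, (∀ γ ∈ Γ, γ.eval w' = 1) ∧
      ∀ i : X, (Fm.var i).eval w' = w i := by
    refine compactness (fun i : X => (Fm.var i, w i)) Γ fun s => ?_
    by_contra hcon
    push Not at hcon
    set l : List Fm := s.toList.map fun i : X => (θ (w i)).subst fun _ => .var i with hl
    have hvl : (prod l).vars ⊆ X := by
      apply vars_prod
      intro ψ hψ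
      rw [hl, List.mem_map] at hψ
      obtain ⟨i, -, rfl⟩ := hψ
      apply vars_subst
      intro n _
      simp only [Fm.vars, Set.singleton_subset_iff]
      exact i.2
    have hmem : (Fm.imp (npow (prod l) k) .zero) ∈
        {δ : Fm | δ.vars ⊆ X ∧ (logicOf B).Entails Γ δ} := by
      refine ⟨?_, ?_⟩
      · simp only [Fm.vars, Set.union_empty]
        exact (vars_npow _ _).trans hvl
      · rw [entails_iff k hk]
        intro w'' hw''
        obtain ⟨i, hi, hne⟩ := hcon w'' hw''
        simp only [Fm.eval, eval_npow]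
        rw [imp_eq_one, hk]
        intro h1
        have h2 : ((θ (w i)).subst fun _ => .var i).eval w'' = 1 := by
          apply le_antisymm (le_one _)
          rw [← h1]
          apply eval_prod_le
          rw [hl, List.mem_map]
          exact ⟨i, by simpa using hi, rfl⟩
        exact hne ((hsub i (w i) w'').mp h2)
    have h1 := hw _ hmem
    simp only [Fm.eval, eval_npow] at h1
    rw [eval_prod_eq_one w l, one_pow, one_imp] at h1
    · exact hnt h1
    · intro ψ hψ
      rw [hl, List.mem_map] at hψ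
      obtain ⟨i, -, rfl⟩ := hψ
      rw [hsub]
  -- glue the two valuations
  set w'' : ℕ → B := fun n => if n ∈ ⋃ γ ∈ Γ, γ.vars then w' n else w n with hw''
  have h1 : φ.eval w'' = 1 := by
    refine hΓφ w'' fun γ hγ => ?_
    rw [← hw'Γ γ hγ]
    apply eval_congr
    intro n hn
    have : n ∈ ⋃ γ ∈ Γ, γ.vars := Set.mem_biUnion hγ hn
    simp only [hw'', if_pos this]
  rw [← h1]
  apply eval_congr
  intro n hn
  by_cases hnΓ : n ∈ ⋃ γ ∈ Γ, γ.vars
  · simp only [hw'', if_pos hnΓ]
    exact (hw'X ⟨n, hnΓ, hn⟩).symm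
  · simp only [hw'', if_neg hnΓ]

end logic

/-! ### The two finite algebras -/

/-- The chain `0 < 1 < 2 < 3` in which products of elements different from the unit `3` are
`0`. -/
def B4 : Type := Fin 4

instance : LinearOrder B4 := inferInstanceAs (LinearOrder (Fin 4))
instance : Fintype B4 := inferInstanceAs (Fintype (Fin 4))

instance : MTLAlgebra B4 where
  mul a b := if a = (3 : Fin 4) then b else if b = (3 : Fin 4) then a else (0 : Fin 4)
  one := (3 : Fin 4)
  mul_assoc := by decide
  mul_comm := by decide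
  one_mul := by decide
  mul_one := by decide
  zero := (0 : Fin 4)
  imp a b := if a ≤ b then (3 : Fin 4) else if a = (3 : Fin 4) then b else (2 : Fin 4)
  zero_le x := Fin.zero_le (n := 4) x
  le_one := by decide
  residuation := by decide
  prelinearity := by decide

/-- The four-element MV-chain, with elements `0 < 1 < 2 < 3` standing for
`0 < 1/3 < 2/3 < 1`. -/
def C4 : Type := Fin 4

instance : LinearOrder C4 := inferInstanceAs (LinearOrder (Fin 4))
instance : Fintype C4 := inferInstanceAs (Fintype (Fin 4))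

instance : MTLAlgebra C4 where
  mul a b := (⟨a.val + b.val - 3, by have := a.isLt; have := b.isLt; omega⟩ : Fin 4)
  one := (3 : Fin 4)
  mul_assoc := by decide
  mul_comm := by decide
  one_mul := by decide
  mul_one := by decide
  zero := (0 : Fin 4)
  imp a b := (⟨min 3 (3 - a.val + b.val), by omega⟩ : Fin 4)
  zero_le x := Fin.zero_le (n := 4) x
  le_one := by decide
  residuation := by decide
  prelinearity := by decide

/-- Defining formulas for the elements of `B4`. -/
def thetaB (b : Fin 4) : Fm :=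
  match b with
  | 0 => .imp (.var 0) .zero
  | 1 => .mul (.imp (npow (.imp (.var 0) .zero) 2) .zero)
      (.mul (.imp (npow (.mul (.imp (.imp (.var 0) .zero) (.var 0))
        (.imp (.var 0) (.imp (.var 0) .zero))) 2) .zero) (.imp (npow (.var 0) 2) .zero))
  | 2 => .mul (.imp (.imp (.var 0) .zero) (.var 0)) (.imp (.var 0) (.imp (.var 0) .zero))
  | 3 => .var 0

/-- Defining formulas for the elements of `C4`. -/
def thetaC (b : Fin 4) : Fm :=
  match b with
  | 0 => .imp (.var 0) .zero
  | 1 => .mul (.imp (.var 0) (.mul (.imp (.var 0) .zero) (.imp (.var 0) .zero)))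
      (.imp (.mul (.imp (.var 0) .zero) (.imp (.var 0) .zero)) (.var 0))
  | 2 => .mul (.imp (.imp (.var 0) .zero) (.mul (.var 0) (.var 0)))
      (.imp (.mul (.var 0) (.var 0)) (.imp (.var 0) .zero))
  | 3 => .var 0

lemma dip_B4 : (logicOf B4).DIP := by
  refine dip_logicOf (B := B4) (by decide) 2 (by decide) thetaB ?_
  decide

lemma dip_C4 : (logicOf C4).DIP := by
  refine dip_logicOf (B := C4) (by decide) 3 (by decide) thetaC ?_
  decide

/-! ### No common extension -/

section key

variable {A : Type} [MTLAlgebra A]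

open MTLAlgebra

lemma key_P {v c d e p : A} (h1 : v * v ≤ zero) (h2 : imp v zero ≤ v)
    (e2 : e * c ≤ d * d) (e3 : e * imp d zero ≤ c) (hp : p * d ≤ v) :
    e ^ 4 * p ^ 6 ≤ zero := by
  have a1 : p * v ≤ imp d zero := by
    apply le_imp
    have : p * v * d = (p * d) * v := by ac_rfl
    rw [this]
    exact (mul_le_mul'' hp le_rfl).trans h1
  have a2 : e * (p * v) ≤ c := (mul_le_mul'' le_rfl a1).trans e3
  have a3 : e * (e * (p * v)) ≤ d * d := (mul_le_mul'' le_rfl a2).trans e2
  have a4 : (e ^ 2 * p ^ 3) * v ≤ zero := by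
    have : (e ^ 2 * p ^ 3) * v = (p * p) * (e * (e * (p * v))) := by
      simp only [pow_succ, pow_zero, one_mul]; ac_rfl
    rw [this]
    refine (mul_le_mul'' le_rfl a3).trans ?_
    have : p * p * (d * d) = (p * d) * (p * d) := by ac_rfl
    rw [this]
    exact (mul_le_mul'' hp hp).trans h1
  have a5 : e ^ 2 * p ^ 3 ≤ v := (le_imp a4).trans h2
  have : e ^ 4 * p ^ 6 = (e ^ 2 * p ^ 3) * (e ^ 2 * p ^ 3) := by
    simp only [pow_succ, pow_zero, one_mul]; ac_rfl
  rw [this]
  exact (mul_le_mul'' a5 a5).trans h1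

lemma key {u v c d e : A} (h1 : v * v ≤ zero) (h2 : imp v zero ≤ v) (h3 : imp v u ≤ v)
    (h4 : imp u zero ≤ v) (e1 : e * (d * d) ≤ c) (e2 : e * c ≤ d * d)
    (e3 : e * imp d zero ≤ c) (e4 : e * (c * d) ≤ zero) : e ^ 16 = zero := by
  -- the three comparisons
  have hpq : imp v d ⊔ imp d v = 1 := prelinearity _ _
  have hrs : imp u (d * v) ⊔ imp (d * v) u = 1 := prelinearity _ _
  have hrp : imp (d * v) u ≤ imp d v := by
    apply le_imp
    refine le_trans (le_imp ?_) h3
    rw [mul_assoc]
    exact imp_mul_le _ _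
  have hsp : imp u (d * v) ⊔ imp d v = 1 :=
    le_antisymm (le_one _) (by rw [← hrs]; exact sup_le_sup_left hrp _)
  have htp : imp v d * imp u (d * v) ⊔ imp d v = 1 := sup_mul_eq_one hpq hsp
  set p := imp d v with hp
  set t := imp v d * imp u (d * v) with ht
  -- case `p`
  have hP : e ^ 4 * p ^ 6 ≤ zero := key_P h1 h2 e2 e3 (imp_mul_le _ _)
  -- case `t`
  have b1 : t * u ≤ d * d := by
    have c1 : imp u (d * v) * u ≤ d * v := imp_mul_le _ _
    have c2 : imp v d * v ≤ d := imp_mul_le _ _
    calc t * u = imp v d * (imp u (d * v) * u) := by rw [ht, mul_assoc]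
      _ ≤ imp v d * (d * v) := mul_le_mul'' le_rfl c1
      _ = d * (imp v d * v) := by ac_rfl
      _ ≤ d * d := mul_le_mul'' le_rfl c2
  have b2 : e * (t * u) ≤ c := (mul_le_mul'' le_rfl b1).trans e1
  have b3 : (e ^ 2 * t) * d ≤ v := by
    refine le_trans (le_imp ?_) h4
    have : e ^ 2 * t * d * u = e * ((e * (t * u)) * d) := by
      simp only [pow_succ, pow_zero, one_mul]; ac_rfl
    rw [this]
    exact (mul_le_mul'' le_rfl (mul_le_mul'' b2 le_rfl)).trans e4
  have hT : e ^ 4 * (e ^ 2 * t) ^ 6 ≤ zero := key_P h1 h2 e2 e3 b3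
  have hT' : e ^ 16 * t ^ 6 ≤ zero := by
    rw [mul_pow, ← mul_assoc, ← pow_mul, ← pow_add] at hT
    exact hT
  have hP' : e ^ 16 * p ^ 6 ≤ zero := by
    refine le_trans ?_ hP
    rw [show (16 : ℕ) = 12 + 4 from rfl, pow_add, mul_assoc]
    exact mul_le_right _ _
  apply eq_zero_of_le
  calc e ^ 16 = (t ^ 6 ⊔ p ^ 6) * e ^ 16 := by rw [pow_sup_pow_eq_one htp, one_mul]
    _ = t ^ 6 * e ^ 16 ⊔ p ^ 6 * e ^ 16 := sup_mul' _ _ _
    _ ≤ zero := by
      apply sup_le
      · rw [mul_comm]; exact hT'
      · rw [mul_comm]; exact hP'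

end key

/-- The premises: variables `0` and `1` stand for `u` and `v`. -/
def premises : Set Fm :=
  {.imp (.mul (.var 1) (.var 1)) .zero, .imp (.imp (.var 1) .zero) (.var 1),
    .imp (.imp (.var 1) (.var 0)) (.var 1), .imp (.imp (.var 0) .zero) (.var 1)}

/-- The conjunction of relations of `C4`: variables `2` and `3` stand for `1/3` and `2/3`. -/
def relC : Fm :=
  .mul (.mul (.imp (.mul (.var 3) (.var 3)) (.var 2)) (.imp (.var 2) (.mul (.var 3) (.var 3))))
    (.mul (.imp (.imp (.var 3) .zero) (.var 2)) (.imp (.mul (.var 2) (.var 3)) .zero))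

/-- The conclusion. -/
def conclusion : Fm := .imp (npow relC 16) .zero

lemma entails_conclusion (L : AxExt) : L.Entails premises conclusion := by
  intro A _ v hv
  have hv' := fun γ hγ => hv γ (Or.inl hγ)
  have h1 := hv' (.imp (.mul (.var 1) (.var 1)) .zero) (by simp [premises])
  have h2 := hv' (.imp (.imp (.var 1) .zero) (.var 1)) (by simp [premises])
  have h3 := hv' (.imp (.imp (.var 1) (.var 0)) (.var 1)) (by simp [premises])
  have h4 := hv' (.imp (.imp (.var 0) .zero) (.var 1)) (by simp [premises])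
  simp only [Fm.eval, imp_eq_one] at h1 h2 h3 h4
  simp only [conclusion, Fm.eval, eval_npow, imp_eq_one]
  refine le_of_eq (key (u := v 0) (v := v 1) (c := v 2) (d := v 3) h1 h2 h3 h4 ?_ ?_ ?_ ?_)
  all_goals simp only [relC, Fm.eval]
  · exact (mul_le_mul'' ((mul_le_left _ _).trans (mul_le_left _ _)) le_rfl).trans
      (imp_mul_le _ _)
  · exact (mul_le_mul'' ((mul_le_left _ _).trans (mul_le_right _ _)) le_rfl).trans
      (imp_mul_le _ _)
  · exact (mul_le_mul'' ((mul_le_right _ _).trans (mul_le_left _ _)) le_rfl).trans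
      (imp_mul_le _ _)
  · exact (mul_le_mul'' ((mul_le_right _ _).trans (mul_le_right _ _)) le_rfl).trans
      (imp_mul_le _ _)

/-- A closed formula takes the value `0` in all algebras, or the value `1` in all algebras. -/
lemma closed_eval (δ : Fm) (h : δ.vars = ∅) :
    (∀ (A : Type) [MTLAlgebra A] (v : ℕ → A), δ.eval v = MTLAlgebra.zero) ∨
      (∀ (A : Type) [MTLAlgebra A] (v : ℕ → A), δ.eval v = 1) := by
  induction δ with
  | var n => exact absurd h (Set.singleton_ne_empty n)
  | zero => exact Or.inl fun A _ v => rfl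
  | one => exact Or.inr fun A _ v => rfl
  | inf φ ψ h1 h2 =>
    simp only [Fm.vars, Set.union_empty_iff] at h
    simp only [Fm.eval]
    rcases h1 h.1 with h1 | h1
    · exact Or.inl fun A _ v => by rw [h1]; exact inf_eq_left.mpr (MTLAlgebra.zero_le _)
    · rcases h2 h.2 with h2 | h2
      · exact Or.inl fun A _ v => by rw [h2]; exact inf_eq_right.mpr (MTLAlgebra.zero_le _)
      · exact Or.inr fun A _ v => by rw [h1, h2]; exact inf_idem _
  | sup φ ψ h1 h2 =>
    simp only [Fm.vars, Set.union_empty_iff] at h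
    simp only [Fm.eval]
    rcases h1 h.1 with h1 | h1
    · rcases h2 h.2 with h2 | h2
      · exact Or.inl fun A _ v => by rw [h1, h2]; exact sup_idem _
      · exact Or.inr fun A _ v => by rw [h2]; exact sup_eq_right.mpr (MTLAlgebra.le_one _)
    · exact Or.inr fun A _ v => by rw [h1]; exact sup_eq_left.mpr (MTLAlgebra.le_one _)
  | mul φ ψ h1 h2 =>
    simp only [Fm.vars, Set.union_empty_iff] at h
    simp only [Fm.eval]
    rcases h1 h.1 with h1 | h1
    · exact Or.inl fun A _ v => by rw [h1, zero_mul']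
    · rcases h2 h.2 with h2 | h2
      · exact Or.inl fun A _ v => by rw [h2, mul_comm, zero_mul']
      · exact Or.inr fun A _ v => by rw [h1, h2, one_mul]
  | imp φ ψ h1 h2 =>
    simp only [Fm.vars, Set.union_empty_iff] at h
    simp only [Fm.eval]
    rcases h1 h.1 with h1 | h1
    · exact Or.inr fun A _ v => by rw [h1, imp_eq_one]; exact MTLAlgebra.zero_le _
    · rcases h2 h.2 with h2 | h2
      · exact Or.inl fun A _ v => by rw [h1, h2, one_imp]
      · exact Or.inr fun A _ v => by rw [h2, imp_eq_one]; exact MTLAlgebra.le_one _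

/-- The valuation in `B4` satisfying the premises. -/
def valB (n : ℕ) : B4 := if n = 0 then (1 : Fin 4) else (2 : Fin 4)

/-- The valuation in `C4` refuting the conclusion. -/
def valC (n : ℕ) : C4 := if n = 2 then (1 : Fin 4) else (2 : Fin 4)

lemma not_dip (L : AxExt) (hB : L.Le (logicOf B4)) (hC : L.Le (logicOf C4)) : ¬ L.DIP := by
  intro hdip
  obtain ⟨Δ, hvars, hΓΔ, hΔφ⟩ := hdip premises conclusion (entails_conclusion L)
  have hprem : ∀ γ ∈ premises, γ.eval valB = 1 := by
    intro γ hγ
    simp only [premises, Set.mem_insert_iff, Set.mem_singleton_iff] at hγ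
    rcases hγ with rfl | rfl | rfl | rfl <;> decide
  have hΔB : ∀ δ ∈ Δ, δ.eval valB = 1 := fun δ hδ =>
    hB _ _ (hΓΔ δ hδ) B4 valB fun γ hγ => hγ.elim (hprem γ) fun h => h valB
  have hclosed : ∀ δ ∈ Δ, δ.vars = ∅ := by
    intro δ hδ
    rw [← Set.subset_empty_iff]
    refine (hvars δ hδ).trans ?_
    intro n hn
    obtain ⟨h1, h2⟩ := hn
    have h1' : n = 0 ∨ n = 1 := by
      simp only [premises, Set.mem_insert_iff, Set.mem_singleton_iff, Set.mem_iUnion] at h1
      obtain ⟨γ, hγ, hn⟩ := h1
      rcases hγ with rfl | rfl | rfl | rfl <;> simp [Fm.vars] at hn <;> tauto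
    have h2' : n = 2 ∨ n = 3 := by
      simp only [conclusion, Fm.vars, Set.union_empty] at h2
      have h3 := vars_npow _ _ h2
      simp [relC, Fm.vars] at h3
      tauto
    omega
  have hΔC : ∀ δ ∈ Δ, δ.eval valC = 1 := by
    intro δ hδ
    rcases closed_eval δ (hclosed δ hδ) with h | h
    · exfalso
      have h1 := hΔB δ hδ
      rw [h B4 valB] at h1
      exact absurd h1 (by decide)
    · exact h C4 valC
  have hφ := hC _ _ hΔφ C4 valC fun γ hγ => hγ.elim (hΔC γ) fun h => h valC
  exact absurd hφ (by decide)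

/-- **There is no minimum axiomatic extension of MTL with the deductive interpolation
property.** -/
theorem result : ¬ ∃ L₀ : AxExt, L₀.DIP ∧ ∀ L : AxExt, L.DIP → L₀.Le L := by
  rintro ⟨L₀, h0, hmin⟩
  exact not_dip L₀ (hmin _ dip_B4) (hmin _ dip_C4) h0

end Pool.Agent.Results.MP_acc005_lc.NoMinimum
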